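import Mathlib
import Pool.Agent.Q288.MinMax.LargeLaw

/-! # The root value of the noisy min-max game at criticality -/

set_option autoImplicit false

namespace Pool.Agent.Results.MP_398e29_pr.AtCriticality

open MeasureTheory ProbabilityTheory Filter Topology Set Q288.MinMax Q288.MinMax.Large

/-- The polynomial `g`. -/
noncomputable def g (d : ℕ) (x y z : ℝ) : ℝ :=
  (1 - 1 / 2 * (1 - (x + y) / 2) ^ d - 1 / 2 * (1 - (y + z) / 2) ^ d) ^ d

/-- The map `Ψ` on functions on `ℤ`. -/
noncomputable def Psi2 (d : ℕ) (F : ℤ → ℝ) (i : ℤ) : ℝ := g d (F (i - 2)) (F i) (F (i + 2))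

/-- Stability: the iterates of all distribution functions close to `F` in the sup norm converge
to `F`. -/
def Stable (d : ℕ) (F : ℤ → ℝ) : Prop :=
  ∃ ε > 0, ∀ G : ℤ → ℝ, IsCDF G → (∀ i, |G i - F i| ≤ ε) →
    ∀ i, Tendsto (fun n => (Psi2 d)^[n] G i) atTop (𝓝 (F i))

/-- `V_n^{(p)}` converges in distribution to `L`. -/
def Conv (d : ℕ) [NeZero d] (p : ℝ) (L : ProbabilityMeasure ℤ) : Prop :=
  ∀ (Ω : Type) [MeasurableSpace Ω] (P : Measure Ω) [IsProbabilityMeasure P]
    (X B : List (Fin d) → Ω → ℤ), Model d p P X B →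
    TendstoInDistribution (fun n ω => V n (fun v => X v ω) (fun v => B v ω)) atTop
      (fun j : ℤ => j) (fun _ => P) (L : Measure ℤ)

/-- The law shifted by `2`. -/
noncomputable def shift2 (L : ProbabilityMeasure ℤ) : ProbabilityMeasure ℤ :=
  ⟨(L : Measure ℤ).map fun j => j + 2,
    Measure.isProbabilityMeasure_map measurable_from_top.aemeasurable⟩

/-- Critical points. -/
def IsCritical (d : ℕ) [NeZero d] (L0 : ProbabilityMeasure ℤ) (pc : ℝ) : Prop :=
  0 < pc ∧ pc < 1 ∧
    (((∀ p, pc < p → p ≤ 1 → Conv d p L0) ∧ (∀ p, 0 ≤ p → p < pc → Conv d p (shift2 L0))) ∨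
      ((∀ p, 0 ≤ p → p < pc → Conv d p L0) ∧ (∀ p, pc < p → p ≤ 1 → Conv d p (shift2 L0))))

/-- The distribution function of a law. -/
noncomputable def cdf (L : ProbabilityMeasure ℤ) (j : ℤ) : ℝ := (L : Measure ℤ).real (Iic j)

theorem Psi2_half (d : ℕ) (f : ℤ → ℝ) : Psi2 d (fun j => f (j / 2)) = fun j => Psi d f (j / 2) := by
  funext j
  unfold Psi2 g Psi opB opA
  beta_reduce
  rw [show (j - 2) / 2 = j / 2 - 1 by omega, show (j + 2) / 2 = j / 2 + 1 by omega,
    add_sub_cancel_right]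
  congr 1
  ring

theorem iter_half (d : ℕ) (f : ℤ → ℝ) (n : ℕ) :
    (Psi2 d)^[n] (fun j => f (j / 2)) = fun j => (Psi d)^[n] f (j / 2) := by
  induction n with
  | zero => rfl
  | succ n ih => rw [Function.iterate_succ_apply', ih, Psi2_half, Function.iterate_succ_apply']

theorem cdf_shift2 (L : ProbabilityMeasure ℤ) (j : ℤ) : cdf (shift2 L) j = cdf L (j - 2) := by
  unfold cdf shift2
  rw [ProbabilityMeasure.coe_mk, map_measureReal_apply measurable_from_top measurableSet_Iic]
  congr 1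
  ext i
  simp only [mem_preimage, mem_Iic]
  omega

/-- Convergence in distribution gives convergence of the distribution functions. -/
theorem Conv.orb {d : ℕ} [NeZero d] {p : ℝ} {L : ProbabilityMeasure ℤ} (h : Conv d p L)
    (p0 : 0 ≤ p) (p1 : p ≤ 1) (j : ℤ) :
    Tendsto (fun n => orb d p n (j / 2)) atTop (𝓝 (cdf L j)) := by
  have hp := bdry_prob p0 p1
  have hM := canonical d p0 p1
  have h1 := (h (Conf d) (claw d (bdry p)) _ _ hM).tendsto
  have h2 := ProbabilityMeasure.tendsto_measure_of_null_frontier_of_tendsto' h1 (E := Iic j)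
    (by rw [isClopen_discrete (Iic j) |>.frontier_eq]; exact measure_empty)
  have h3 := (ENNReal.tendsto_toReal (measure_ne_top _ _)).comp h2
  have e1 : (((L : Measure ℤ).map fun j : ℤ => j) (Iic j)).toReal = cdf L j := by
    have : (fun j : ℤ => j) = id := rfl
    rw [this, Measure.map_id]
    rfl
  simp only [ProbabilityMeasure.coe_mk] at h3
  rw [e1] at h3
  refine h3.congr fun n => ?_
  exact hM.cdf n j

/-- For all large `d`: critical points exist, and at every critical point `pc` the root value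
converges in distribution to a law whose distribution function is an unstable fixed point of `Ψ`
and which differs from the two laws `L0` and `L0 + 2`. -/
theorem result : ∃ d₀ : ℕ, ∀ d ≥ d₀, ∀ [NeZero d], ∃ L0 : ProbabilityMeasure ℤ,
    Conv d 1 L0 ∧ Conv d 0 (shift2 L0) ∧ (∃ pc, IsCritical d L0 pc) ∧
    ∀ pc, IsCritical d L0 pc → ∃ L : ProbabilityMeasure ℤ, Conv d pc L ∧
      Psi2 d (cdf L) = cdf L ∧ ¬ Stable d (cdf L) ∧ L ≠ L0 ∧ L ≠ shift2 L0 := by
  obtain ⟨d₀, hd₀⟩ := eventually_atTop.1 eventually_big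
  refine ⟨d₀, fun d hd _ => ?_⟩
  have hb := hd₀ d hd
  have hd5 := hb.dpos
  obtain ⟨L0, hL0⟩ := exists_law_two (Linf_cdf hb)
  have hL0' : ∀ j, cdf L0 j = Linf d (j / 2) := hL0
  have hsh : ∀ j, cdf (shift2 L0) j = Linf d (j / 2 - 1) := fun j => by
    rw [cdf_shift2, hL0']
    congr 1
    omega
  have conv1 : ∀ p, S1 d p → Conv d p L0 := fun p hp Ω _ P _ X B hM =>
    hM.tendsto L0 _ (Linf d) (fun j => hL0 j) hp
  have conv0 : ∀ p, S0 d p → Conv d p (shift2 L0) := fun p hp Ω _ P _ X B hM =>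
    hM.tendsto (shift2 L0) _ (fun k => Linf d (k - 1)) (fun j => hsh j) hp
  have vnoc1 : ∀ p, 0 ≤ p → p ≤ 1 → Conv d p L0 → S1 d p := fun p p0 p1 hp k => by
    have := hp.orb p0 p1 (2 * k)
    rw [hL0', show (2 * k) / 2 = k by omega] at this
    exact this
  have vnoc0 : ∀ p, 0 ≤ p → p ≤ 1 → Conv d p (shift2 L0) → S0 d p := fun p p0 p1 hp k => by
    have := hp.orb p0 p1 (2 * k)
    rw [hsh, show (2 * k) / 2 = k by omega] at this
    exact this
  obtain ⟨qc, q0, q1, g0, g1⟩ := exists_threshold hb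
  refine ⟨L0, conv1 1 (g1 1 q1 le_rfl), conv0 0 (g0 0 le_rfl q0), ⟨qc, q0, q1, Or.inl
    ⟨fun p hp hp1 => conv1 p (g1 p hp hp1), fun p p0 hp => conv0 p (g0 p p0 hp)⟩⟩, ?_⟩
  rintro pc ⟨c0, c1, hc⟩
  have hor : (∀ p, pc < p → p ≤ 1 → Conv d p L0) ∧ (∀ p, 0 ≤ p → p < pc → Conv d p (shift2 L0)) := by
    rcases hc with hc | hc
    · exact hc
    · exfalso
      exact not_S1_S0 hb (g1 1 q1 le_rfl) (vnoc0 1 zero_le_one le_rfl (hc.2 1 c1 le_rfl))
  have h1 : ∀ p, pc < p → p ≤ 1 → S1 d p := fun p hp hp1 =>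
    vnoc1 p (c0.le.trans hp.le) hp1 (hor.1 p hp hp1)
  have h0 : ∀ p, 0 ≤ p → p < pc → S0 d p := fun p p0 hp =>
    vnoc0 p p0 (hp.le.trans c1.le) (hor.2 p p0 hp)
  obtain ⟨F, hF, hlim, hunif, hfix, hF8, hF32⟩ := crit_conv hb c0 c1 h0 h1
  obtain ⟨L, hL⟩ := exists_law_two hF
  have hL' : cdf L = fun j => F (j / 2) := funext hL
  refine ⟨L, fun Ω _ P _ X B hM => hM.tendsto L _ F (fun j => hL j) hlim, ?_, ?_, ?_, ?_⟩
  · rw [hL', Psi2_half, hfix]
  · rintro ⟨ε, hε, hst⟩
    obtain ⟨N, hN⟩ := hunif (ε / 2) (by positivity)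
    have hK : (0 : ℝ) < ((d : ℝ) ^ 2) ^ N := by positivity
    obtain ⟨e, he⟩ : ∃ e, e = min (ε / 2 / ((d : ℝ) ^ 2) ^ N) (1 - pc) := ⟨_, rfl⟩
    have he0 : 0 < e := by
      rw [he]
      exact lt_min (by positivity) (by linarith)
    have he1 : e ≤ 1 - pc := by rw [he]; exact min_le_right _ _
    have he2 : ((d : ℝ) ^ 2) ^ N * e ≤ ε / 2 := by
      have : e ≤ ε / 2 / ((d : ℝ) ^ 2) ^ N := by rw [he]; exact min_le_left _ _
      rwa [le_div_iff₀ hK, mul_comm] at this
    have p0 : 0 ≤ pc + e := by linarith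
    have p1 : pc + e ≤ 1 := by linarith
    have hclose : ∀ k, |Large.orb d (pc + e) N k - F k| ≤ ε := by
      intro k
      have h2 : |Large.orb d (pc + e) N k - Large.orb d pc N k| ≤ ((d : ℝ) ^ 2) ^ N * e := by
        refine iter_lip (F0_unit p0 p1) (F0_unit c0.le c1.le) (fun k => ?_) N k
        unfold F0
        split_ifs
        · simpa using he0.le
        · rw [add_sub_cancel_left, abs_of_pos he0]
        · simpa using he0.le
      have h3 := hN N le_rfl k
      have h4 := abs_sub_le (Large.orb d (pc + e) N k) (Large.orb d pc N k) (F k)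
      linarith
    have hG : IsCDF fun j : ℤ => Large.orb d (pc + e) N (j / 2) := by
      have hG' : IsCDF (Large.orb d (pc + e) N) :=
        iter_cdf (F0_cdf p0 p1) (by have := hb.h0; omega) N
      refine ⟨fun i j hij => hG'.mono (Int.ediv_le_ediv (by norm_num) hij), ?_, ?_⟩
      · refine hG'.bot.comp (tendsto_atBot.2 fun b => ?_)
        filter_upwards [eventually_le_atBot (2 * b)] with j hj
        omega
      · refine hG'.top.comp (tendsto_atTop.2 fun b => ?_)
        filter_upwards [eventually_ge_atTop (2 * b)] with j hj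
        omega
    have h5 := hst _ hG (fun i => by rw [hL']; exact hclose (i / 2)) 0
    have h6 : Tendsto (fun n => (Psi2 d)^[n] (fun j : ℤ => Large.orb d (pc + e) N (j / 2)) 0) atTop
        (𝓝 (Linf d 0)) := by
      have h7 := (h1 (pc + e) (by linarith) p1 0).comp (tendsto_add_atTop_nat N)
      refine h7.congr fun n => ?_
      simp only [Function.comp_apply]
      rw [iter_half, add_comm n N, orb_add]
      rfl
    have h8 := tendsto_nhds_unique h5 h6
    rw [hL'] at h8
    have h9 := Linf_zero hb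
    have h10 := small_bound hb
    have h11 : F 0 = Linf d 0 := h8
    linarith
  · intro h
    have h2 : cdf L 0 = cdf L0 0 := by rw [h]
    rw [hL', hL0'] at h2
    have h9 := Linf_zero hb
    have h10 := small_bound hb
    have h11 : F 0 = Linf d 0 := h2
    linarith
  · intro h
    have h2 : cdf L 0 = cdf (shift2 L0) 0 := by rw [h]
    rw [hL', hsh] at h2
    have h9 := Linf_neg_one hb
    have h11 : F 0 = Linf d (-1) := by simpa using h2
    have h12 : 1 / (d : ℝ) ^ 2 < 8 / d := by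
      rw [div_lt_div_iff₀ (by positivity) (by positivity)]
      nlinarith
    linarith

end Pool.Agent.Results.MP_398e29_pr.AtCriticality
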